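import Pool.Agent.Y817.PD.Stm

/-!
# The Gilbert-Varshamov bound for linear codes over `F_p` containing the all-ones word

Library for `MP_0430e4_lc` (job PD-GV of helper817).
-/

set_option autoImplicit false

namespace Pool.Agent.Y888.PD

open Pool.Agent.Y817.PD Finset

section
variable {p n : ℕ} [hp : Fact p.Prime]

/-- admissible submodules -/
def Adm (p n : ℕ) [Fact p.Prime] (δ : ℝ) (W : Submodule (ZMod p) (Fin n → ZMod p)) : Prop :=
  (fun _ => (1 : ZMod p)) ∈ W ∧ ∀ x ∈ W, x ≠ 0 → δ * n ≤ hammingNorm x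

theorem adm_span (δ : ℝ) (hδ : δ < 1) : Adm p n δ (Submodule.span (ZMod p) {fun _ => (1 : ZMod p)}) := by
  refine ⟨Submodule.mem_span_singleton_self _, fun x hx hx0 => ?_⟩
  obtain ⟨c, rfl⟩ := Submodule.mem_span_singleton.1 hx
  have hc : c ≠ 0 := by
    rintro rfl
    exact hx0 (zero_smul _ _)
  have h1 : hammingNorm (c • fun _ : Fin n => (1 : ZMod p)) = n := by
    unfold hammingNorm
    rw [Finset.filter_true_of_mem, card_univ, Fintype.card_fin]
    intro i _
    simpa using hc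
  rw [h1]
  have : (0 : ℝ) ≤ n := Nat.cast_nonneg n
  nlinarith

theorem exists_max (p n : ℕ) [Fact p.Prime] (δ : ℝ) (hδ : δ < 1) :
    ∃ W : Submodule (ZMod p) (Fin n → ZMod p), Adm p n δ W ∧
      ∀ W' : Submodule (ZMod p) (Fin n → ZMod p), Adm p n δ W' → W ≤ W' → W' = W := by
  haveI : Finite (Submodule (ZMod p) (Fin n → ZMod p)) :=
    Finite.of_injective (fun W => (W : Set (Fin n → ZMod p))) SetLike.coe_injective
  obtain ⟨W, hW⟩ := (Set.toFinite {W | Adm p n δ W}).exists_maximal ⟨_, adm_span δ hδ⟩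
  exact ⟨W, hW.1, fun W' h1 h2 => le_antisymm (hW.2 h1 h2) h2⟩

theorem near {δ : ℝ} {W : Submodule (ZMod p) (Fin n → ZMod p)} (hn : 0 < n) (hδ : 0 < δ)
    (hW : Adm p n δ W) (hmax : ∀ W' : Submodule (ZMod p) (Fin n → ZMod p), Adm p n δ W' → W ≤ W' →
      W' = W) (x : Fin n → ZMod p) : ∃ w ∈ W, (hammingNorm (x - w) : ℝ) < δ * n := by
  by_cases hx : x ∈ W
  · refine ⟨x, hx, ?_⟩
    rw [sub_self, hammingNorm_zero, Nat.cast_zero]
    have : (0 : ℝ) < n := by exact_mod_cast hn
    positivity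
  · by_contra hcon
    push Not at hcon
    have h1 : Adm p n δ (W ⊔ Submodule.span (ZMod p) {x}) := by
      refine ⟨Submodule.mem_sup_left hW.1, fun y hy hy0 => ?_⟩
      obtain ⟨w, hw, z, hz, rfl⟩ := Submodule.mem_sup.1 hy
      obtain ⟨c, rfl⟩ := Submodule.mem_span_singleton.1 hz
      by_cases hc : c = 0
      · subst hc
        rw [zero_smul, add_zero] at hy0 ⊢
        exact hW.2 w hw hy0
      · have h2 := hcon (-(c⁻¹ • w)) (W.neg_mem (W.smul_mem _ hw))
        have h3 : w + c • x = c • (x - -(c⁻¹ • w)) := by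
          rw [sub_neg_eq_add, smul_add, smul_smul, mul_inv_cancel₀ hc, one_smul, add_comm]
        rw [h3]
        have h4 : hammingNorm (c • (x - -(c⁻¹ • w))) = hammingNorm (x - -(c⁻¹ • w)) :=
          hammingNorm_smul (fun _ => (IsSMulRegular.of_ne_zero hc)) _
        rw [h4]
        exact h2
    have h2 := hmax _ h1 le_sup_left
    apply hx
    rw [← h2]
    exact Submodule.mem_sup_right (Submodule.mem_span_singleton_self x)

/-- the ball -/
noncomputable def Ball (p n : ℕ) [Fact p.Prime] (δ : ℝ) : Finset (Fin n → ZMod p) :=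
  univ.filter fun x => (hammingNorm x : ℝ) < δ * n

theorem sum_pow (t : ℝ) :
    ∑ x : Fin n → ZMod p, t ^ hammingNorm x = (1 + ((p : ℝ) - 1) * t) ^ n := by
  classical
  have h1 : ∀ x : Fin n → ZMod p, t ^ hammingNorm x = ∏ i, (if x i = 0 then 1 else t) := by
    intro x
    unfold hammingNorm
    rw [← Finset.prod_const, Finset.prod_filter]
    refine Finset.prod_congr rfl fun i _ => ?_
    by_cases h : x i = 0 <;> simp [h]
  rw [Finset.sum_congr rfl fun x _ => h1 x]
  rw [← Fintype.piFinset_univ]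
  rw [← Finset.prod_univ_sum (fun _ : Fin n => (univ : Finset (ZMod p)))
    (fun _ a => if a = 0 then (1 : ℝ) else t)]
  rw [Finset.prod_const, card_univ, Fintype.card_fin]
  congr 1
  rw [← Finset.add_sum_erase univ _ (mem_univ (0 : ZMod p)), if_pos rfl]
  congr 1
  rw [Finset.sum_congr rfl (g := fun _ => t)]
  · rw [Finset.sum_const, card_erase_of_mem (mem_univ _), card_univ, ZMod.card, nsmul_eq_mul,
      Nat.cast_sub hp.out.one_lt.le, Nat.cast_one]
  · intro a ha
    rw [if_neg (Finset.ne_of_mem_erase ha)]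

theorem ball_le (δ t : ℝ) (ht0 : 0 < t) (ht1 : t ≤ 1) :
    ((Ball p n δ).card : ℝ) * t ^ (δ * n) ≤ (1 + ((p : ℝ) - 1) * t) ^ n := by
  classical
  rw [← sum_pow (p := p) (n := n) t, ← nsmul_eq_mul, ← Finset.sum_const]
  calc ∑ _x ∈ Ball p n δ, t ^ (δ * n) ≤ ∑ x ∈ Ball p n δ, t ^ hammingNorm x := by
        refine Finset.sum_le_sum fun x hx => ?_
        rw [← Real.rpow_natCast]
        exact Real.rpow_le_rpow_of_exponent_ge ht0 ht1 (Finset.mem_filter.1 hx).2.le
    _ ≤ ∑ x : Fin n → ZMod p, t ^ hammingNorm x :=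
        Finset.sum_le_sum_of_subset_of_nonneg (Finset.subset_univ _)
          fun x _ _ => pow_nonneg ht0.le _

end

/-- GV -/
theorem t : StmGV := by
  intro p n hp δ t hδ0 hδ1 ht0 ht1
  classical
  rcases Nat.eq_zero_or_pos n with h0 | hn
  · subst h0
    refine ⟨⊤, Submodule.mem_top, fun x _ hx => absurd (Subsingleton.elim x 0) hx, ?_⟩
    rw [pow_zero]
    have : 0 < Nat.card (⊤ : Submodule (ZMod p) (Fin 0 → ZMod p)) := Nat.card_pos
    exact_mod_cast this
  obtain ⟨W, hW, hmax⟩ := exists_max p n δ hδ1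
  refine ⟨W, hW.1, hW.2, ?_⟩
  -- covering
  have hcov : (p : ℝ) ^ n ≤ (Nat.card W : ℝ) * ((Ball p n δ).card : ℝ) := by
    have h1 : Fintype.card (Fin n → ZMod p) ≤ Nat.card W * (Ball p n δ).card := by
      have hs : Function.Surjective
          (fun q : W × (Ball p n δ : Finset (Fin n → ZMod p)) => (q.1 : Fin n → ZMod p) + q.2.1) := by
        intro x
        obtain ⟨w, hw, hlt⟩ := near hn hδ0 hW hmax x
        refine ⟨(⟨w, hw⟩, ⟨x - w, Finset.mem_filter.2 ⟨mem_univ _, hlt⟩⟩), ?_⟩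
        simp
      have h2 := Nat.card_le_card_of_surjective _ hs
      rw [Nat.card_prod, Nat.card_eq_fintype_card (α := (Fin n → ZMod p))] at h2
      rw [Nat.card_eq_fintype_card (α := (Ball p n δ : Finset (Fin n → ZMod p))),
        Fintype.card_coe] at h2
      exact h2
    rw [Fintype.card_fun, ZMod.card, Fintype.card_fin] at h1
    exact_mod_cast h1
  have hball := ball_le (p := p) (n := n) δ t ht0 ht1
  have hp1 : (1 : ℝ) ≤ p := by exact_mod_cast hp.out.one_lt.le
  have hD : 0 < 1 + ((p : ℝ) - 1) * t := by nlinarith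
  rw [div_pow, mul_pow, div_le_iff₀ (pow_pos hD n)]
  have e : (t ^ δ) ^ n = t ^ (δ * n) := by
    rw [Real.rpow_mul ht0.le, Real.rpow_natCast]
  rw [e]
  have h3 : 0 ≤ t ^ (δ * n) := Real.rpow_nonneg ht0.le _
  calc (p : ℝ) ^ n * t ^ (δ * n)
      ≤ ((Nat.card W : ℝ) * ((Ball p n δ).card : ℝ)) * t ^ (δ * n) :=
        mul_le_mul_of_nonneg_right hcov h3
    _ = (Nat.card W : ℝ) * (((Ball p n δ).card : ℝ) * t ^ (δ * n)) := by ring
    _ ≤ (Nat.card W : ℝ) * (1 + ((p : ℝ) - 1) * t) ^ n :=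
        mul_le_mul_of_nonneg_left hball (Nat.cast_nonneg _)

end Pool.Agent.Y888.PD
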